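import Mathlib
import Pool.Agent.H271Z.Rig.Defs
import Pool.Agent.H271Z.Rig.Main

set_option autoImplicit false

namespace Pool.Agent.Results.MP_c10eee_an.NotRigid

open Pool.Agent.H271Z.Rig
open scoped ContDiff

/-- In dimension three, for every admissible `f` and every interval `[m - R, m + R]` on which `f`
is a constant `c ≤ R / 6`, there is a smooth solution of `Δ u = f(u)` in the unit ball with values
in that interval which is homeomorphic to a one-dimensional solution but is not nearly isometric
to a one-dimensional solution on any ball around the origin. -/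
theorem result (f : ℝ → ℝ) (hf : ContDiff ℝ ∞ f) (hfc : HasCompactSupport f)
    (hf0 : ∀ t, 0 ≤ f t) (m R c : ℝ) (hR : 0 < R) (hcR : 6 * c ≤ R)
    (hconst : ∀ t ∈ Set.Icc (m - R) (m + R), f t = c) :
    ∃ u : E3 → ℝ, ContDiff ℝ ∞ u ∧
      (∀ x ∈ Metric.ball (0 : E3) 1, u x ∈ Set.Icc (m - R) (m + R)) ∧
      (∀ x ∈ Metric.ball (0 : E3) 1, Laplacian.laplacian u x = f (u x)) ∧
      HomeoToOneDim f u ∧ ∀ δ : ℝ, 0 < δ → ¬ NearIsoToOneDim f u δ :=
  main f hf hfc hf0 m R c hR hcR hconst

end Pool.Agent.Results.MP_c10eee_an.NotRigid
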